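import Pool.Agent.H295R2.LK.R1
import Pool.Agent.H306R2.RMain

set_option autoImplicit false

/-!
The window estimates of helper306 (file `H306R2/NW.lean`) for windows centred at
`τ ≤ exp (T ^ η)` (adapted from that file: only the core mean value theorem changes).
-/

namespace H295LM

open Finset Filter Topology MeasureTheory
open Pool.Agent.H306R2

noncomputable section

theorem core_evX (j c0 : ℕ) (η δ : ℝ) (hη : 0 < η) (hη2 : η < 1 / 2) (hδ : 0 < δ) (hδ1 : δ ≤ 1) :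
    ∀ᶠ T : ℝ in atTop, ∀ τ : ℝ, δ * T ≤ τ → τ ≤ Real.exp (T ^ η) → ∀ A G : ArithmeticFunction ℝ,
      PB A c0 → (∀ n : ℕ, T < n → A n = 0) → PB G c0 →
      ‖(∫ t in (τ - δ / 2 * T)..(τ + δ / 2 * T), (riemannZeta (1 / 2 + t * Complex.I) ^ j *
          Dp A T (1 / 2 + t * Complex.I)) *
        (starRingEnd ℂ) (Dp G (Yt η T) (1 / 2 + t * Complex.I)) * (gw τ (Ht η T) t : ℂ)) -
      ((∑ m ∈ Icc 1 ⌊Yt η T⌋₊, (zR ^ j * A) m * G m / m : ℝ) : ℂ)‖ ≤ 1 := by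
  have h := H295LK.core_evN 0 j c0 η δ hη hη2 hδ hδ1
  simpa only [pow_zero, div_one] using h

/-- the window integral of the numerator -/
theorem N_windowX {n : ℕ} (j : ℕ) (hj : 1 ≤ j) (e : Fin n → ℝ) (he : ∀ i, 0 < e i) (κ : ℝ)
    (hκ : κ = j + ∑ i, e i) (β : Fin n → ℝ) (hβ : ∀ i, 0 < β i) (hβs : ∑ i, β i ≤ 1)
    (hm0 : 1 ≤ κ * j) (c : ℝ)
    (hc : c < aF κ * ((∏ i : Fin n, (β i) ^ (κ * e i) / Real.Gamma (κ * e i + 1)) *
      ((1 - ∑ i : Fin n, β i * (κ * e i / (κ * e i + 1))) ^ (κ * j) / Real.Gamma (κ * j + 1))))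
    (η δ : ℝ) (hη : 0 < η) (hη2 : η < 1 / 2) (hδ : 0 < δ) (hδ1 : δ ≤ 1) :
    ∀ᶠ T : ℝ in atTop, ∀ τ : ℝ, δ * T ≤ τ → τ ≤ Real.exp (T ^ η) →
      c * Real.log (Yt η T) ^ (κ ^ 2) ≤
      ‖∫ t in (τ - δ / 2 * T)..(τ + δ / 2 * T), (riemannZeta (1 / 2 + t * Complex.I) ^ j *
          ∏ i, Dp (tr (dA (e i)) (Yt η T ^ β i)) (Yt η T ^ β i) (1 / 2 + t * Complex.I)) *
        (starRingEnd ℂ) (Dp (dA κ) (Yt η T) (1 / 2 + t * Complex.I)) * (gw τ (Ht η T) t : ℂ)‖ := by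
  obtain ⟨c', hc1, hc2⟩ := exists_between hc
  have hκ0 : 0 < κ := by
    have h1 : 0 ≤ ∑ i, e i := sum_nonneg fun i _ => (he i).le
    have h2 : (0:ℝ) < j := by exact_mod_cast hj
    linarith
  have hN := N_sum j hj e he κ hκ β hβ hβs hm0 c' hc2 η hη2
  obtain ⟨J, hJ⟩ := exists_nat_ge κ
  have hJ' : ∑ i, e i ≤ J := by
    have h2 : (0:ℝ) < j := by exact_mod_cast hj
    linarith
  have hcore := core_evX j J η δ hη hη2 hδ hδ1
  have hbig : ∀ᶠ T : ℝ in atTop, 1 ≤ (c' - c) * Real.log (Yt η T) ^ (κ ^ 2) := by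
    have h1 : Tendsto (fun T : ℝ => (c' - c) * Real.log (Yt η T) ^ (κ ^ 2)) atTop atTop :=
      Tendsto.const_mul_atTop (by linarith)
        ((tendsto_rpow_atTop (by positivity)).comp (Yt_tendsto hη2))
    exact h1.eventually_ge_atTop 1
  filter_upwards [hN, hcore, hbig, eventually_ge_atTop 1] with T hT1 hT2 hT3 hT4 τ hτ1 hτ2
  have hT0 : 0 < T := by linarith
  set Y := Yt η T with hYdef
  have hY1 : 1 ≤ Y := one_le_Yt hη2 hT4
  have hYT : Y ≤ T := Yt_le hη hT4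
  have hXs : ∏ i, Y ^ β i ≤ Y := by
    rw [← Real.rpow_sum_of_pos (by linarith)]
    calc Y ^ (∑ i, β i) ≤ Y ^ (1:ℝ) := Real.rpow_le_rpow_of_exponent_le hY1 hβs
      _ = Y := Real.rpow_one Y
  have hD := fun s => Dp_prod univ (fun i => tr (dA (e i)) (Y ^ β i)) (fun i => Y ^ β i)
    (fun i => Real.one_le_rpow hY1 (hβ i).le) (fun i n hn => tr_supp _ _ n hn) s
  have hsupp : ∀ n : ℕ, T < n → PA e (fun i => Y ^ β i) n = 0 := fun n hn =>
    (hD 0).1 n (by linarith)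
  have h := hT2 τ hτ1 hτ2 (PA e (fun i => Y ^ β i)) (dA κ) (PA_PB (fun i => (he i).le) _ hJ')
    hsupp (PB_dA hκ0.le hJ)
  have hDp : ∀ s, Dp (PA e (fun i => Y ^ β i)) T s = ∏ i, Dp (tr (dA (e i)) (Y ^ β i)) (Y ^ β i) s := by
    intro s
    rw [Dp_mono (PA e (fun i => Y ^ β i)) (∏ i, Y ^ β i) T (by linarith) (hD s).1]
    exact (hD s).2
  simp only [hDp] at h
  have h2 := norm_sub_norm_le (((∑ m ∈ Icc 1 ⌊Y⌋₊, (zR ^ j * PA e (fun i => Y ^ β i)) m * dA κ m / m : ℝ) : ℂ))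
    (∫ t in (τ - δ / 2 * T)..(τ + δ / 2 * T), (riemannZeta (1 / 2 + t * Complex.I) ^ j *
          ∏ i, Dp (tr (dA (e i)) (Y ^ β i)) (Y ^ β i) (1 / 2 + t * Complex.I)) *
        (starRingEnd ℂ) (Dp (dA κ) Y (1 / 2 + t * Complex.I)) * (gw τ (Ht η T) t : ℂ))
  rw [norm_sub_rev] at h2
  rw [Complex.norm_real] at h2
  have h3 := Real.le_norm_self (∑ m ∈ Icc 1 ⌊Y⌋₊, (zR ^ j * PA e (fun i => Y ^ β i)) m * dA κ m / m)
  linarith

/-- the window integrals of the auxiliary polynomials -/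
theorem K_windowX (e : ℝ) (he : 0 < e) (q : ℕ) (hq : 1 ≤ q) (β : ℝ) (hβ : 0 < β)
    (hβq : β * q ≤ 1) (C : ℝ)
    (hC : aF (q * e) * (β ^ ((q * e) * e) / Real.Gamma ((q * e) * e + 1)) ^ q < C)
    (η δ : ℝ) (hη : 0 < η) (hη2 : η < 1 / 2) (hδ : 0 < δ) (hδ1 : δ ≤ 1) :
    ∀ᶠ T : ℝ in atTop, ∀ τ : ℝ, δ * T ≤ τ → τ ≤ Real.exp (T ^ η) →
      ∫ t in (τ - δ / 2 * T)..(τ + δ / 2 * T),
        ‖Dp (tr (dA e) (Yt η T ^ β)) (Yt η T ^ β) (1 / 2 + t * Complex.I)‖ ^ (2 * q) * gw τ (Ht η T) t ≤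
        C * Real.log (Yt η T) ^ ((q * e) ^ 2) := by
  obtain ⟨C', hC1, hC2⟩ := exists_between hC
  have hκ0 : 0 < (q:ℝ) * e := by
    have : (0:ℝ) < q := by exact_mod_cast hq
    positivity
  have hK := K_sum e he q hq β hβ C' hC1 η hη2
  obtain ⟨J, hJ⟩ := exists_nat_ge ((q:ℝ) * e)
  have hcore := core_evX 0 J η δ hη hη2 hδ hδ1
  have hbig : ∀ᶠ T : ℝ in atTop, 1 ≤ (C - C') * Real.log (Yt η T) ^ (((q:ℝ) * e) ^ 2) := by
    have h1 : Tendsto (fun T : ℝ => (C - C') * Real.log (Yt η T) ^ (((q:ℝ) * e) ^ 2)) atTop atTop :=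
      Tendsto.const_mul_atTop (by linarith)
        ((tendsto_rpow_atTop (by positivity)).comp (Yt_tendsto hη2))
    exact h1.eventually_ge_atTop 1
  filter_upwards [hK, hcore, hbig, eventually_ge_atTop 1] with T hT1 hT2 hT3 hT4 τ hτ1 hτ2
  have hT0 : 0 < T := by linarith
  set Y := Yt η T with hYdef
  have hY1 : 1 ≤ Y := one_le_Yt hη2 hT4
  have hYT : Y ≤ T := Yt_le hη hT4
  set X := Y ^ β with hX
  have hX1 : 1 ≤ X := Real.one_le_rpow hY1 hβ.le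
  have hXq : X ^ q ≤ Y := by
    rw [hX, ← Real.rpow_natCast, ← Real.rpow_mul (by linarith)]
    calc Y ^ (β * q) ≤ Y ^ (1:ℝ) := Real.rpow_le_rpow_of_exponent_le hY1 hβq
      _ = Y := Real.rpow_one Y
  set B := tr (dA e) X with hB
  have hD := fun s => Dp_pow B X hX1 (fun n hn => tr_supp _ _ n hn) s q
  have hPB : PB (B ^ q) J := by
    intro m
    have h0 := tr_pow_nonneg he.le X q m
    have h1 := tr_pow_le he.le X q m
    rw [abs_of_nonneg h0]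
    refine h1.trans ((le_abs_self _).trans ?_)
    exact PB_dA hκ0.le hJ m
  have h := hT2 τ hτ1 hτ2 (B ^ q) (B ^ q) hPB (fun n hn => (hD 0).1 n (by linarith)) hPB
  have hDT : ∀ s, Dp (B ^ q : ArithmeticFunction ℝ) T s = Dp B X s ^ q := by
    intro s
    rw [Dp_mono (B ^ q) (X ^ q) T (by linarith) (hD s).1]
    exact (hD s).2
  have hDY : ∀ s, Dp (B ^ q : ArithmeticFunction ℝ) Y s = Dp B X s ^ q := by
    intro s
    rw [Dp_mono (B ^ q) (X ^ q) Y hXq (hD s).1]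
    exact (hD s).2
  simp only [hDT, hDY, pow_zero, one_mul] at h
  have hint : ∀ t : ℝ, Dp B X (1 / 2 + t * Complex.I) ^ q *
      (starRingEnd ℂ) (Dp B X (1 / 2 + t * Complex.I) ^ q) * (gw τ (Ht η T) t : ℂ) =
      ((‖Dp B X (1 / 2 + t * Complex.I)‖ ^ (2 * q) * gw τ (Ht η T) t : ℝ) : ℂ) := by
    intro t
    rw [Complex.mul_conj, Complex.normSq_eq_norm_sq, norm_pow, ← pow_mul, mul_comm q 2]
    push_cast
    ring
  simp only [hint] at h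
  rw [intervalIntegral.integral_ofReal, ← Complex.ofReal_sub, Complex.norm_real] at h
  have h3 := (Real.le_norm_self _).trans h
  linarith


end

end H295LM
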