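import Pool.Agent.H295R2.LM.RMain

set_option autoImplicit false

/-! The master lower bound in short intervals for the powers `|ζ|^k`, `k` a natural number. -/

namespace H295LM

open Finset Filter Topology MeasureTheory
open Pool.Agent.H306R2

noncomputable section

theorem masterXnat {n : ℕ} (k j : ℕ) (hk : 1 ≤ k) (q : Fin n → ℕ) (β : Fin n → ℝ)
    (hA : Adm k j q β) (c : ℝ) (hc : c < aF ((k:ℝ) / 2) * mB ((k:ℝ) / 2) j q β) :
    ∃ A : ℝ, 0 < A ∧ ∀ᶠ T : ℝ in atTop, ∀ U : ℝ, Real.log T ^ A ≤ U →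
      c * (U * Real.log U ^ ((k:ℝ) ^ 2 / 4)) ≤
        ∫ t in T..(T + U), ‖riemannZeta (1 / 2 + t * Complex.I)‖ ^ k := by
  have hk0 : (0:ℝ) < k := by exact_mod_cast hk
  have hAR : AdmR ((k:ℝ) / 2) j q β :=
    { hj := hA.hj
      hq := hA.hq
      hsum := by
        have h := hA.hsum
        have e : (j:ℝ) / ((k:ℝ) / 2) = 2 * (j:ℝ) / k := by
          rw [div_div_eq_mul_div, mul_comm]
        rw [e]
        exact h
      hβ := hA.hβ
      hβq := hA.hβq
      hβs := hA.hβs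
      hm := hA.hm }
  obtain ⟨A, hA0, h⟩ := masterX ((k:ℝ) / 2) (by positivity) j q β hAR c hc
  refine ⟨A, hA0, ?_⟩
  filter_upwards [h] with T hT U hU
  have h1 := hT U hU
  rw [show ((k:ℝ) / 2) ^ 2 = (k:ℝ) ^ 2 / 4 by ring, show 2 * ((k:ℝ) / 2) = k by ring] at h1
  refine h1.trans (le_of_eq ?_)
  refine intervalIntegral.integral_congr fun t _ => ?_
  exact Real.rpow_natCast _ _

end

end H295LM
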